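import Pool.Agent.Helper18.FF3.Stmts

/-!
# MPW: a rational function whose values are `m`-th powers has orders divisible by `m`
-/

set_option autoImplicit false

namespace Pool.Agent.Helper18.FF3

open Polynomial Pool.Agent.Helper14.BSC Pool.Agent.Helper60.FF

theorem mpw_point {p : ℕ} [Fact p.Prime] (hTRA : ST_TRA) (A : Subfield ℂ_[p])
    (hc : (A : Set ℂ_[p]).Countable) (E : IntermediateField ℚ_[p] ℂ_[p])
    (hE : FiniteDimensional ℚ_[p] E) (v π : ℂ_[p]) (hv : v ∈ E) (hπ : π ∈ E) (h0 : 0 < ‖π‖)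
    (k : ℕ) : ∃ τ ∈ E, τ ∉ A ∧ ‖τ - v‖ = ‖π‖ ^ k := by
  obtain ⟨τ, hτ, hτA, hlt⟩ := hTRA p A hc E hE (v + π ^ k) (E.add_mem hv (E.pow_mem hπ k))
    (‖π‖ ^ k) (pow_pos h0 k)
  refine ⟨τ, hτ, hτA, ?_⟩
  have e : τ - v = (τ - (v + π ^ k)) + π ^ k := by ring
  have h1 : ‖π ^ k‖ = ‖π‖ ^ k := norm_pow _ _
  rw [e, IsUltrametricDist.norm_add_eq_max_of_norm_ne_norm (by rw [h1]; exact hlt.ne), h1]
  exact max_eq_right hlt.le

theorem st_MPW (hTRA : ST_TRA) (hNRV : ST_NRV) (hLFX : ST_LFX) : ST_MPW := by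
  intro p _ A hc halg hcl E hE m hm θ hθ hpow v
  have hvi : IsIntegral ℚ_[p] (v : ℂ_[p]) := (halg v v.2).isIntegral
  have hfv : FiniteDimensional ℚ_[p] (IntermediateField.adjoin ℚ_[p] {(v : ℂ_[p])}) :=
    IntermediateField.adjoin.finiteDimensional hvi
  obtain ⟨E', hE'⟩ : ∃ E' : IntermediateField ℚ_[p] ℂ_[p],
      E' = E ⊔ IntermediateField.adjoin ℚ_[p] {(v : ℂ_[p])} := ⟨_, rfl⟩
  have hfE' : FiniteDimensional ℚ_[p] E' := by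
    rw [hE']
    exact IntermediateField.finiteDimensional_sup _ _
  have hEE' : E ≤ E' := by
    rw [hE']
    exact le_sup_left
  have hvE' : (v : ℂ_[p]) ∈ E' := by
    rw [hE']
    exact (le_sup_right : IntermediateField.adjoin ℚ_[p] {(v : ℂ_[p])} ≤ _)
      (IntermediateField.mem_adjoin_simple_self ℚ_[p] (v : ℂ_[p]))
  obtain ⟨_, π, hπA, f, hLF⟩ := hLFX p A hcl E' hfE'
  obtain ⟨ε, Cc, hε, hCc, hnr⟩ := (hNRV p A hcl θ hθ).1 v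
  obtain ⟨K, hK⟩ := exists_pow_lt_of_lt_one hε hLF.lt
  have key : ∀ k : ℕ, K ≤ k → ∃ s : ℤ, Cc * (‖π‖ ^ k) ^ (ordv A v θ) = ‖π‖ ^ (s * m) := by
    intro k hk
    obtain ⟨τ, hτ, hτA, hn⟩ := mpw_point hTRA A hc E' hfE' v π hvE' hLF.mem hLF.pos k
    have hlt : ‖τ - v‖ < ε := by
      rw [hn]
      exact (pow_le_pow_of_le_one hLF.pos.le hLF.lt.le hk).trans_lt hK
    have h1 := hnr τ hτA hlt
    obtain ⟨w, hw, hwe⟩ := hpow E' hfE' hEE' τ hτ hτA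
    have hpos : 0 < ‖ev A τ θ‖ := by
      rw [h1, hn]
      exact mul_pos hCc (zpow_pos (pow_pos hLF.pos k) _)
    have hw0 : w ≠ 0 := by
      rintro rfl
      rw [hwe, zero_pow hm.ne', norm_zero] at hpos
      exact lt_irrefl _ hpos
    obtain ⟨s, hs⟩ := hLF.val w hw hw0
    refine ⟨s, ?_⟩
    rw [← hn, ← h1, hwe, norm_pow, hs, zpow_mul, zpow_natCast]
  obtain ⟨s, hs⟩ := key K le_rfl
  obtain ⟨s', hs'⟩ := key (K + 1) (Nat.le_succ K)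
  have hr := hLF.pos
  have h2 : ‖π‖ ^ (ordv A v θ) = ‖π‖ ^ ((s' - s) * m) := by
    have e1 : (‖π‖ ^ (K + 1)) ^ (ordv A v θ) = (‖π‖ ^ K) ^ (ordv A v θ) * ‖π‖ ^ (ordv A v θ) := by
      rw [pow_succ, mul_zpow]
    have e2 : ‖π‖ ^ ((s' - s) * (m : ℤ)) = ‖π‖ ^ (s' * m) / ‖π‖ ^ (s * m) := by
      rw [sub_mul, zpow_sub₀ hr.ne']
    rw [e2, ← hs, ← hs', e1]
    have h3 : (‖π‖ ^ K) ^ (ordv A v θ) ≠ 0 := (zpow_pos (pow_pos hr K) _).ne'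
    field_simp
  have h4 : ordv A v θ = (s' - s) * m := zpow_right_injective₀ hr hLF.lt.ne h2
  exact ⟨s' - s, by rw [h4]; ring⟩

end Pool.Agent.Helper18.FF3
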